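import Pool.Agent.W492.BB.Calc

/-!
# Correspondences: degrees, transposition and duality
-/

set_option autoImplicit false
set_option linter.unusedSectionVars false

open CategoryTheory Pool.Agent.H914 Pool.Agent.H914.VarClass Pool.Agent.H914.VarClass.Obj
open Pool.Agent.W492.BB

universe u v w

namespace Pool.Agent.NH36.BB

variable {k : Type u} [Field k] {𝒱 : VarClass k}

section theory

variable {F : Type w} [Field F] {δ : ℤ} (T : TheoryData.{u, v, w} 𝒱 F) [hT : IsTheory T δ]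
  {X Y Z : 𝒱.Obj}

/-- The action `Γ^* : A(Y) → A(X)`, `b ↦ p_* (Γ · q^* b)` of a class `Γ` on `X × Y`. -/
noncomputable def coact (Γ : T.A (X.prod Y)) (b : T.A Y) : T.A X :=
  T.down (fst X Y) (T.mul Γ (T.up (snd X Y) b))

/-- The action `Γ^*` as a linear map. -/
noncomputable def coactL (Γ : T.A (X.prod Y)) : T.A Y →ₗ[F] T.A X :=
  T.push (fst X Y) ∘ₗ LinearMap.mulLeft F Γ ∘ₗ (T.pull (snd X Y)).toLinearMap

lemma coactL_apply (Γ : T.A (X.prod Y)) (b : T.A Y) : coactL T Γ b = coact T Γ b := rfl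

lemma act_add_right (Γ : T.A (X.prod Y)) (a b : T.A X) :
    T.act Γ (a + b) = T.act Γ a + T.act Γ b := map_add (T.actL Γ) a b

lemma act_sub_right (Γ : T.A (X.prod Y)) (a b : T.A X) :
    T.act Γ (a - b) = T.act Γ a - T.act Γ b := map_sub (T.actL Γ) a b

lemma act_smul_right (Γ : T.A (X.prod Y)) (c : F) (a : T.A X) :
    T.act Γ (c • a) = c • T.act Γ a := map_smul (T.actL Γ) c a

lemma act_smul_left (Γ : T.A (X.prod Y)) (c : F) (a : T.A X) :
    T.act (c • Γ) a = c • T.act Γ a := by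
  rw [T.act_apply, T.act_apply, smul_mul_assoc, map_smul]

lemma act_sum_left {ι : Type} (s : Finset ι) (Γ : ι → T.A (X.prod Y)) (a : T.A X) :
    T.act (∑ i ∈ s, Γ i) a = ∑ i ∈ s, T.act (Γ i) a := by
  simp only [T.act_apply, Finset.sum_mul, map_sum]

include hT

lemma act_mem {i j : ℤ} {Γ : T.A (X.prod Y)} (hΓ : T.Deg i Γ) {a : T.A X} (ha : T.Deg j a) :
    T.Deg (i + j - δ * X.dim) (T.act Γ a) := by
  have h := T.push_mem (snd X Y) (T.mul_mem hΓ (T.pull_mem (fst X Y) ha))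
  have e : i + j + δ * ((Y.dim : ℤ) - (X.prod Y).dim) = i + j - δ * X.dim := by
    rw [Obj.dim_prod]; push_cast; ring
  rw [e] at h
  exact h

lemma coact_mem {i j : ℤ} {Γ : T.A (X.prod Y)} (hΓ : T.Deg i Γ) {b : T.A Y} (hb : T.Deg j b) :
    T.Deg (i + j - δ * Y.dim) (coact T Γ b) := by
  have h := T.push_mem (fst X Y) (T.mul_mem hΓ (T.pull_mem (snd X Y) hb))
  have e : i + j + δ * ((X.dim : ℤ) - (X.prod Y).dim) = i + j - δ * Y.dim := by
    rw [Obj.dim_prod]; push_cast; ring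
  rw [e] at h
  exact h

lemma ext_mem {i j : ℤ} {a : T.A X} {b : T.A Y} (ha : T.Deg i a) (hb : T.Deg j b) :
    T.Deg (i + j) (T.ext a b) :=
  T.mul_mem (T.pull_mem (fst X Y) ha) (T.pull_mem (snd X Y) hb)

lemma graph_mem (f : X ⟶ Y) : T.Deg (δ * Y.dim) (T.graph f) := by
  have h := T.push_mem (Obj.lift (𝟙 X) f) (T.one_mem X)
  have e : 0 + δ * (((X.prod Y).dim : ℤ) - X.dim) = δ * Y.dim := by
    rw [Obj.dim_prod]; push_cast; ring
  rw [e] at h
  exact h

lemma cograph_mem (f : X ⟶ Y) : T.Deg (δ * Y.dim) (T.cograph f) := by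
  have h := T.push_mem (Obj.lift f (𝟙 X)) (T.one_mem X)
  have e : 0 + δ * (((Y.prod X).dim : ℤ) - X.dim) = δ * Y.dim := by
    rw [Obj.dim_prod]; push_cast; ring
  rw [e] at h
  exact h

lemma comp_mem {i j : ℤ} {Γ : T.A (X.prod Y)} (hΓ : T.Deg i Γ) {Δ : T.A (Y.prod Z)}
    (hΔ : T.Deg j Δ) : T.Deg (i + j - δ * Y.dim) (T.comp Γ Δ) := by
  have h := T.push_mem (t13 X Y Z) (T.mul_mem (T.pull_mem (t23 X Y Z) hΔ)
    (T.pull_mem (fst (X.prod Y) Z) hΓ))
  have e : j + i + δ * (((X.prod Z).dim : ℤ) - ((X.prod Y).prod Z).dim) = i + j - δ * Y.dim := by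
    simp only [Obj.dim_prod]; push_cast; ring
  rw [e] at h
  exact h

/-- the action of an external product -/
lemma act_ext (a : T.A X) (b : T.A Y)
    (hb : ∀ c : T.A (X.prod Y), T.pull (snd X Y) b * c = c * T.pull (snd X Y) b) (x : T.A X) :
    T.act (T.ext a b) x = T.push (snd X Y) (T.pull (fst X Y) (a * x)) * b := by
  rw [T.act_apply, TheoryData.ext, mul_assoc, hb, ← mul_assoc, ← map_mul, T.proj_right]

/-- multiplication after a correspondence -/
lemma act_mul_snd (Γ : T.A (X.prod Y)) (c : T.A Y)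
    (hc : ∀ e : T.A (X.prod Y), T.pull (snd X Y) c * e = e * T.pull (snd X Y) c) (x : T.A X) :
    T.act (Γ * T.pull (snd X Y) c) x = T.act Γ x * c := by
  rw [T.act_apply, T.act_apply, mul_assoc, hc, ← mul_assoc, T.proj_right]

/-- multiplication before a correspondence -/
lemma act_mul_fst (Γ : T.A (X.prod Y)) (c x : T.A X) :
    T.act (Γ * T.pull (fst X Y) c) x = T.act Γ (c * x) := by
  rw [T.act_apply, T.act_apply, mul_assoc, ← map_mul]

end theory

section weil

variable {C : TheoryData.{u, v, 0} 𝒱 ℚ} {K : Type w} [Field K]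
  (H : WeilTheoryData.{u, v, w} C K) [hC : IsChow C] [hH : IsWeil H] {X Y Z : 𝒱.Obj}

include hH

lemma cl_act (Γ : C.A (X.prod Y)) (a : C.A X) :
    H.cl (C.act Γ a) = H.act (H.cl Γ) (H.cl a) := by
  rw [C.act_apply, H.cl_push, map_mul, H.cl_pull]; rfl

lemma cl_coact (Γ : C.A (X.prod Y)) (b : C.A Y) :
    H.cl (coact C Γ b) = coact H.toTheoryData (H.cl Γ) (H.cl b) := by
  unfold coact
  rw [H.cl_push, map_mul, H.cl_pull]

/-- duality -/
lemma tr_dual (Γ : C.A (X.prod Y)) (a : H.A X) (b : H.A Y) :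
    H.tr Y (H.act (H.cl Γ) a * b) = H.tr X (a * coact H.toTheoryData (H.cl Γ) b) := by
  rw [H.toTheoryData.act_apply, ← H.toTheoryData.proj_right, H.tr_push]
  unfold coact
  rw [← H.toTheoryData.proj_left, H.tr_push, mul_assoc, H.cl_central, mul_assoc]
  congr 1
  rw [← H.cl_central]

/-- a correspondence which acts by zero on the cohomology is homologically trivial -/
lemma cl_eq_zero {Γ : C.A (X.prod Y)}
    (h : ∀ (j : ℤ) (a : H.A X), H.Deg j a → H.act (H.cl Γ) a = 0) : H.cl Γ = 0 := by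
  apply H.nondeg
  intro c
  have hc : c ∈ ⨆ m, H.gr (X.prod Y) m := by
    have := (H.toTheoryData.isInternal (X.prod Y)).submodule_iSup_eq_top
    rw [this]; exact Submodule.mem_top
  refine Submodule.iSup_induction (H.gr (X.prod Y)) (motive := fun c =>
    H.tr (X.prod Y) (H.cl Γ * c) = 0) hc ?_ ?_ ?_
  · intro m c hc
    have h1 := H.kunneth X Y m hc
    refine Submodule.span_induction ?_ ?_ ?_ ?_ h1
    · rintro _ ⟨l, a, b, ha, _, rfl⟩
      rw [← mul_assoc, ← H.tr_push (snd X Y), H.toTheoryData.proj_right]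
      have h2 : H.push (snd X Y) (H.cl Γ * H.pull (fst X Y) a) = 0 := h l a ha
      rw [h2, zero_mul, map_zero]
    · rw [mul_zero, map_zero]
    · intro x y _ _ hx hy
      rw [mul_add, map_add, hx, hy, add_zero]
    · intro t x _ hx
      rw [mul_smul_comm, map_smul, hx, smul_zero]
  · rw [mul_zero, map_zero]
  · intro x y hx hy
    rw [mul_add, map_add, hx, hy, add_zero]

end weil

end Pool.Agent.NH36.BB
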